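import Mathlib

/-!
# A quasi-isometry of the quaternionic Heisenberg group far from all generalized affine maps
-/

open MeasureTheory Quaternion
open scoped Interval

namespace Pool.Agent.Results.MP_afcf00_al.NotGenAffine

/-! ### The quaternionic Heisenberg group -/

/-- The first layer `V₁ = ℍⁿ`, with its Euclidean norm. -/
abbrev V1 (n : ℕ) : Type := PiLp 2 (fun _ : Fin n => ℍ[ℝ])

/-- The second layer `V₂ = Im ℍ`: the quaternions with zero real part, with the Euclidean norm. -/
def V2 : Submodule ℝ ℍ[ℝ] where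
  carrier := {q | q.re = 0}
  add_mem' := by
    intro a b ha hb
    change (a + b).re = 0
    rw [Quaternion.re_add]
    change a.re = 0 at ha
    change b.re = 0 at hb
    rw [ha, hb, add_zero]
  zero_mem' := rfl
  smul_mem' := by
    intro c a ha
    change (c • a).re = 0
    change a.re = 0 at ha
    rw [Quaternion.re_smul, ha, smul_zero]

/-- The Lie bracket `[p, q] = 2 Im (∑ i, conj (q i) * p i)` of `V₁ × V₁ → V₂`. -/
noncomputable def bracket {n : ℕ} (p q : V1 n) : V2 :=
  ⟨(2 : ℝ) • (∑ i, star (q i) * p i).im, by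
    change ((2 : ℝ) • (∑ i, star (q i) * p i).im).re = 0
    rw [Quaternion.re_smul, Quaternion.re_im, smul_zero]⟩

/-- The quaternionic Heisenberg group `N = V₁ ⊕ V₂` in exponential coordinates. -/
@[ext] structure Heis (n : ℕ) where
  /-- the horizontal component `π₁ x` -/
  hor : V1 n
  /-- the vertical component -/
  ver : V2

namespace Heis

variable {n : ℕ}

/-- `x * y = x + y + ½ [x, y]`. -/
noncomputable instance : Mul (Heis n) :=
  ⟨fun x y => ⟨x.hor + y.hor, x.ver + y.ver + (1 / 2 : ℝ) • bracket x.hor y.hor⟩⟩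

noncomputable instance : One (Heis n) := ⟨⟨0, 0⟩⟩

noncomputable instance : Inv (Heis n) := ⟨fun x => ⟨-x.hor, -x.ver⟩⟩

@[simp] lemma mul_hor (x y : Heis n) : (x * y).hor = x.hor + y.hor := rfl
@[simp] lemma mul_ver (x y : Heis n) :
    (x * y).ver = x.ver + y.ver + (1 / 2 : ℝ) • bracket x.hor y.hor := rfl
@[simp] lemma one_hor : (1 : Heis n).hor = 0 := rfl
@[simp] lemma one_ver : (1 : Heis n).ver = 0 := rfl
@[simp] lemma inv_hor (x : Heis n) : x⁻¹.hor = -x.hor := rfl
@[simp] lemma inv_ver (x : Heis n) : x⁻¹.ver = -x.ver := rfl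

end Heis

section bracket

variable {n : ℕ}

lemma bracket_coe (p q : V1 n) :
    (bracket p q : ℍ[ℝ]) = (2 : ℝ) • (∑ i, star (q i) * p i).im := rfl

lemma bracket_add_left (p p' q : V1 n) :
    bracket (p + p') q = bracket p q + bracket p' q := by
  apply Subtype.ext
  rw [Submodule.coe_add, bracket_coe, bracket_coe, bracket_coe, ← smul_add, ← Quaternion.im_add,
    ← Finset.sum_add_distrib]
  simp only [PiLp.add_apply, mul_add]

lemma bracket_add_right (p q q' : V1 n) :
    bracket p (q + q') = bracket p q + bracket p q' := by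
  apply Subtype.ext
  rw [Submodule.coe_add, bracket_coe, bracket_coe, bracket_coe, ← smul_add, ← Quaternion.im_add,
    ← Finset.sum_add_distrib]
  simp only [PiLp.add_apply, star_add, add_mul]

lemma bracket_smul_left (c : ℝ) (p q : V1 n) : bracket (c • p) q = c • bracket p q := by
  apply Subtype.ext
  rw [Submodule.coe_smul, bracket_coe, bracket_coe, smul_comm c (2 : ℝ)]
  simp only [PiLp.smul_apply, mul_smul_comm]
  rw [← Finset.smul_sum, Quaternion.im_smul]

lemma bracket_smul_right (c : ℝ) (p q : V1 n) : bracket p (c • q) = c • bracket p q := by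
  apply Subtype.ext
  rw [Submodule.coe_smul, bracket_coe, bracket_coe, smul_comm c (2 : ℝ)]
  simp only [PiLp.smul_apply, Quaternion.star_smul, smul_mul_assoc]
  rw [← Finset.smul_sum, Quaternion.im_smul]

lemma norm_im_le (x : ℍ[ℝ]) : ‖x.im‖ ≤ ‖x‖ := by
  have h1 : Quaternion.normSq x.im ≤ Quaternion.normSq x := by
    rw [Quaternion.normSq_def', Quaternion.normSq_def']
    simp only [Quaternion.re_im, Quaternion.imI_im, Quaternion.imJ_im, Quaternion.imK_im]
    nlinarith [sq_nonneg x.re]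
  rw [Quaternion.normSq_eq_norm_mul_self, Quaternion.normSq_eq_norm_mul_self] at h1
  exact abs_le_of_sq_le_sq' (by nlinarith [norm_nonneg x, norm_nonneg x.im]) (norm_nonneg x) |>.2

/-- `|[p, q]| ≤ 2 |p| |q|`. -/
lemma norm_bracket_le (p q : V1 n) : ‖bracket p q‖ ≤ 2 * ‖p‖ * ‖q‖ := by
  have hsum : ‖∑ i, star (q i) * p i‖ ≤ ‖p‖ * ‖q‖ := by
    calc ‖∑ i, star (q i) * p i‖ ≤ ∑ i, ‖star (q i) * p i‖ := norm_sum_le _ _
      _ = ∑ i, ‖p i‖ * ‖q i‖ := by
          refine Finset.sum_congr rfl fun i _ => ?_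
          rw [norm_mul, Quaternion.norm_star, mul_comm]
      _ ≤ √(∑ i, ‖p i‖ ^ 2) * √(∑ i, ‖q i‖ ^ 2) := Real.sum_mul_le_sqrt_mul_sqrt _ _ _
      _ = ‖p‖ * ‖q‖ := by rw [PiLp.norm_eq_of_L2, PiLp.norm_eq_of_L2]
  have hn : ‖bracket p q‖ = ‖(bracket p q : ℍ[ℝ])‖ := rfl
  rw [hn, bracket_coe, norm_smul, Real.norm_of_nonneg (by norm_num : (0:ℝ) ≤ 2)]
  nlinarith [norm_im_le (∑ i, star (q i) * p i)]

/-- The bracket as a continuous bilinear map. -/
noncomputable def bracketL (n : ℕ) : V1 n →L[ℝ] V1 n →L[ℝ] V2 :=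
  LinearMap.mkContinuous₂ (LinearMap.mk₂ ℝ bracket bracket_add_left bracket_smul_left
    bracket_add_right bracket_smul_right) 2 fun p q => norm_bracket_le p q

@[simp] lemma bracketL_apply (p q : V1 n) : bracketL n p q = bracket p q := rfl

@[simp] lemma bracket_zero_left (q : V1 n) : bracket 0 q = 0 := by
  rw [← bracketL_apply, map_zero]; rfl

@[simp] lemma bracket_zero_right (p : V1 n) : bracket p 0 = 0 := by
  rw [← bracketL_apply, map_zero]

@[simp] lemma bracket_neg_left (p q : V1 n) : bracket (-p) q = -bracket p q := by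
  rw [← bracketL_apply, map_neg]; rfl

@[simp] lemma bracket_neg_right (p q : V1 n) : bracket p (-q) = -bracket p q := by
  rw [← bracketL_apply, map_neg]; rfl

@[simp] lemma bracket_self (p : V1 n) : bracket p p = 0 := by
  apply Subtype.ext
  have : (∑ i, star (p i) * p i) = ((∑ i, Quaternion.normSq (p i) : ℝ) : ℍ[ℝ]) := by
    rw [Finset.sum_congr rfl fun i _ => Quaternion.star_mul_self (p i)]
    exact (map_sum (algebraMap ℝ ℍ[ℝ]) _ _).symm
  rw [bracket_coe, this, Quaternion.im_coe, smul_zero]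
  rfl

lemma bracket_swap (p q : V1 n) : bracket q p = -bracket p q := by
  have h := bracket_self (p + q)
  rw [bracket_add_left, bracket_add_right, bracket_add_right, bracket_self, bracket_self, zero_add,
    add_zero] at h
  exact eq_neg_of_add_eq_zero_right h

end bracket

namespace Heis

variable {n : ℕ}

noncomputable instance : Group (Heis n) where
  mul_assoc x y z := by
    apply Heis.ext
    · simp only [mul_hor, add_assoc]
    · simp only [mul_hor, mul_ver, bracket_add_left, bracket_add_right, smul_add]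
      abel
  one_mul x := by
    apply Heis.ext <;> simp
  mul_one x := by
    apply Heis.ext <;> simp
  inv_mul_cancel x := by
    apply Heis.ext <;> simp

/-- The standard topology of `N = V₁ × V₂`. -/
noncomputable instance : TopologicalSpace (Heis n) :=
  TopologicalSpace.induced (fun x => (x.hor, x.ver)) inferInstance

lemma continuous_hor : Continuous (fun x : Heis n => x.hor) := by
  have h : Continuous (fun x : Heis n => (x.hor, x.ver)) := continuous_induced_dom
  exact h.fst

lemma continuous_mk_zero : Continuous (fun v : V1 n => (⟨v, 0⟩ : Heis n)) := by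
  rw [continuous_induced_rng]
  exact continuous_id.prodMk continuous_const

end Heis

/-! ### The Carnot–Carathéodory metric -/

section cc

variable {n : ℕ}

/-- `Steers u T x y`: the horizontal curve `γ : [0, T] → N` issuing from `x` with integrable
velocity control `u`, that is, the absolutely continuous curve `γ = (v, z)` with `γ 0 = x`,
`v' = u` and `z' = ½ [v, u]` (so that `γ'` is almost everywhere the left-invariant vector
field with value `(u, 0)` at the origin), ends at `y`. -/
structure Steers (u : ℝ → V1 n) (T : ℝ) (x y : Heis n) : Prop where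
  integrable : IntervalIntegrable u volume 0 T
  hor : y.hor = x.hor + ∫ t in (0 : ℝ)..T, u t
  ver : y.ver = x.ver + ∫ t in (0 : ℝ)..T, (1 / 2 : ℝ) • bracket (x.hor + ∫ s in (0 : ℝ)..t, u s) (u t)

/-- The Carnot–Carathéodory distance: the infimum of the lengths `∫ |u|` of the horizontal
curves from `x` to `y`. -/
noncomputable def ccDist (x y : Heis n) : ℝ :=
  sInf {L | ∃ (T : ℝ) (u : ℝ → V1 n), 0 ≤ T ∧ Steers u T x y ∧ L = ∫ t in (0 : ℝ)..T, ‖u t‖}

lemma integrable_vertical {u : ℝ → V1 n} {T : ℝ} (hu : IntervalIntegrable u volume 0 T)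
    (a : V1 n) : IntervalIntegrable
      (fun t => (1 / 2 : ℝ) • bracket (a + ∫ s in (0 : ℝ)..t, u s) (u t)) volume 0 T := by
  have hcont : ContinuousOn (fun t => a + ∫ s in (0 : ℝ)..t, u s) (Set.uIcc 0 T) :=
    continuousOn_const.add
      (intervalIntegral.continuousOn_primitive_interval' hu Set.left_mem_uIcc)
  obtain ⟨M, hM⟩ := (isCompact_uIcc (a := (0 : ℝ)) (b := T)).exists_bound_of_continuousOn hcont
  rw [intervalIntegrable_iff] at hu ⊢
  refine Integrable.mono' (g := fun t => M * ‖u t‖) (hu.norm.const_mul M) ?_ ?_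
  · have hm : AEStronglyMeasurable (fun t => bracketL n (a + ∫ s in (0 : ℝ)..t, u s) (u t))
        (volume.restrict (Set.uIoc 0 T)) :=
      (bracketL n).aestronglyMeasurable_comp₂
        ((hcont.mono Set.uIoc_subset_uIcc).aestronglyMeasurable measurableSet_uIoc)
        hu.aestronglyMeasurable
    exact hm.const_smul (1 / 2 : ℝ)
  · rw [ae_restrict_iff' measurableSet_uIoc]
    refine Filter.Eventually.of_forall fun t ht => ?_
    have h1 := hM t (Set.uIoc_subset_uIcc ht)
    have h2 := norm_bracket_le (a + ∫ s in (0 : ℝ)..t, u s) (u t)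
    rw [norm_smul, Real.norm_of_nonneg (by norm_num : (0 : ℝ) ≤ 1 / 2)]
    nlinarith [norm_nonneg (u t), norm_nonneg (a + ∫ s in (0 : ℝ)..t, u s)]

/-- Horizontal curves are invariant under left translations. -/
lemma Steers.mul_left {u : ℝ → V1 n} {T : ℝ} {x y : Heis n} (h : Steers u T x y) (g : Heis n) :
    Steers u T (g * x) (g * y) := by
  refine ⟨h.integrable, ?_, ?_⟩
  · rw [Heis.mul_hor, Heis.mul_hor, h.hor, add_assoc]
  · have h1 : ∫ t in (0 : ℝ)..T, (1 / 2 : ℝ) • bracket ((g * x).hor + ∫ s in (0 : ℝ)..t, u s) (u t)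
        = (1 / 2 : ℝ) • bracket g.hor (∫ t in (0 : ℝ)..T, u t) +
          ∫ t in (0 : ℝ)..T, (1 / 2 : ℝ) • bracket (x.hor + ∫ s in (0 : ℝ)..t, u s) (u t) := by
      have h2 : ∀ t, (1 / 2 : ℝ) • bracket ((g * x).hor + ∫ s in (0 : ℝ)..t, u s) (u t) =
          (1 / 2 : ℝ) • bracket g.hor (u t) +
            (1 / 2 : ℝ) • bracket (x.hor + ∫ s in (0 : ℝ)..t, u s) (u t) := by
        intro t
        rw [Heis.mul_hor, add_assoc, bracket_add_left, smul_add]
      simp_rw [h2]
      rw [intervalIntegral.integral_add _ (integrable_vertical h.integrable _)]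
      · congr 1
        rw [intervalIntegral.integral_smul]
        congr 1
        exact (bracketL n g.hor).intervalIntegral_comp_comm h.integrable
      · have h3 : IntervalIntegrable (fun t => bracket g.hor (u t)) volume 0 T := by
          rw [intervalIntegrable_iff]
          exact (bracketL n g.hor).integrable_comp
            ((intervalIntegrable_iff.1 h.integrable))
        exact h3.smul (1 / 2 : ℝ)
    rw [h1, Heis.mul_ver, Heis.mul_ver, h.ver, h.hor, bracket_add_right, smul_add]
    abel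

/-- A straight horizontal segment. -/
lemma steers_const (x : Heis n) (w : V1 n) : Steers (fun _ => w) 1 x (x * ⟨w, 0⟩) := by
  refine ⟨intervalIntegrable_const, ?_, ?_⟩
  · simp
  · have : ∀ t : ℝ, (1 / 2 : ℝ) • bracket (x.hor + ∫ _ in (0 : ℝ)..t, w) w =
        (1 / 2 : ℝ) • bracket x.hor w := by
      intro t
      rw [intervalIntegral.integral_const, bracket_add_left, bracket_smul_left, bracket_self,
        smul_zero, add_zero]
    simp_rw [this]
    simp

/-- Concatenation of horizontal curves. -/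
lemma Steers.trans {u u' : ℝ → V1 n} {T T' : ℝ} {x y z : Heis n} (hT : 0 ≤ T) (hT' : 0 ≤ T')
    (h : Steers u T x y) (h' : Steers u' T' y z) :
    ∃ w : ℝ → V1 n, Steers w (T + T') x z ∧
      ∫ t in (0 : ℝ)..(T + T'), ‖w t‖ = (∫ t in (0 : ℝ)..T, ‖u t‖) + ∫ t in (0 : ℝ)..T', ‖u' t‖ := by
  set w : ℝ → V1 n := fun t => if t ≤ T then u t else u' (t - T) with hw
  have hw1 : ∀ t, t ≤ T → w t = u t := fun t ht => by rw [hw]; exact if_pos ht
  have hw2 : ∀ t, T < t → w t = u' (t - T) := fun t ht => by rw [hw]; exact if_neg (not_le.2 ht)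
  -- restriction to the two pieces
  have hsub1 : ∀ t, 0 ≤ t → t ≤ T → Set.EqOn u w (Set.uIoc 0 t) := by
    intro t h0 ht s hs
    rw [Set.uIoc_of_le h0] at hs
    exact (hw1 s (hs.2.trans ht)).symm
  have hsub2 : ∀ t, T ≤ t → Set.EqOn (fun s => u' (s - T)) w (Set.uIoc T t) := by
    intro t ht s hs
    rw [Set.uIoc_of_le ht] at hs
    exact (hw2 s hs.1).symm
  have hi1 : IntervalIntegrable w volume 0 T := h.integrable.congr (hsub1 T hT le_rfl)
  have hi2' : IntervalIntegrable (fun s => u' (s - T)) volume T (T + T') := by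
    have := h'.integrable.comp_sub_right T
    rwa [zero_add, add_comm T' T] at this
  have hi2 : IntervalIntegrable w volume T (T + T') :=
    hi2'.congr (hsub2 (T + T') (by linarith))
  have hi : IntervalIntegrable w volume 0 (T + T') := hi1.trans hi2
  have hint1 : ∀ t, 0 ≤ t → t ≤ T → ∫ s in (0 : ℝ)..t, w s = ∫ s in (0 : ℝ)..t, u s := by
    intro t h0 ht
    refine intervalIntegral.integral_congr_ae (Filter.Eventually.of_forall fun s hs => ?_)
    exact (hsub1 t h0 ht hs).symm
  have hint2' : ∀ t, T ≤ t → ∫ s in T..t, w s = ∫ s in (0 : ℝ)..(t - T), u' s := by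
    intro t ht
    have e1 : ∫ s in T..t, w s = ∫ s in T..t, u' (s - T) :=
      intervalIntegral.integral_congr_ae (Filter.Eventually.of_forall fun s hs =>
        (hsub2 t ht hs).symm)
    rw [e1, intervalIntegral.integral_comp_sub_right, sub_self]
  have hint2 : ∀ t, T ≤ t → t ≤ T + T' →
      x.hor + ∫ s in (0 : ℝ)..t, w s = y.hor + ∫ s in (0 : ℝ)..(t - T), u' s := by
    intro t ht ht'
    have hi3 : IntervalIntegrable w volume T t :=
      hi2.mono_set (by rw [Set.uIcc_of_le ht, Set.uIcc_of_le (by linarith)]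
                       exact Set.Icc_subset_Icc le_rfl ht')
    rw [← intervalIntegral.integral_add_adjacent_intervals hi1 hi3, hint1 T hT le_rfl, h.hor,
      hint2' t ht, add_assoc]
  refine ⟨w, ⟨hi, ?_, ?_⟩, ?_⟩
  · have := hint2 (T + T') (by linarith) le_rfl
    rw [this, show T + T' - T = T' by ring, h'.hor]
  · have hv := integrable_vertical hi x.hor
    have hv1 := integrable_vertical hi1 x.hor
    have hv2 : IntervalIntegrable
        (fun t => (1 / 2 : ℝ) • bracket (x.hor + ∫ s in (0 : ℝ)..t, w s) (w t)) volume T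
          (T + T') :=
      hv.mono_set (by rw [Set.uIcc_of_le (by linarith), Set.uIcc_of_le (by linarith)]
                      exact Set.Icc_subset_Icc hT le_rfl)
    rw [← intervalIntegral.integral_add_adjacent_intervals hv1 hv2, h'.ver, h.ver, add_assoc]
    congr 2
    · refine intervalIntegral.integral_congr_ae (Filter.Eventually.of_forall fun t ht => ?_)
      rw [Set.uIoc_of_le hT] at ht
      rw [hint1 t ht.1.le ht.2, hw1 t ht.2]
    · have e1 : ∫ t in T..(T + T'),
          (1 / 2 : ℝ) • bracket (x.hor + ∫ s in (0 : ℝ)..t, w s) (w t) =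
          ∫ t in T..(T + T'),
          (fun r => (1 / 2 : ℝ) • bracket (y.hor + ∫ s in (0 : ℝ)..r, u' s) (u' r)) (t - T) := by
        refine intervalIntegral.integral_congr_ae (Filter.Eventually.of_forall fun t ht => ?_)
        rw [Set.uIoc_of_le (by linarith)] at ht
        dsimp only
        rw [hint2 t ht.1.le ht.2, hw2 t ht.1]
      rw [e1, intervalIntegral.integral_comp_sub_right
        (fun r => (1 / 2 : ℝ) • bracket (y.hor + ∫ s in (0 : ℝ)..r, u' s) (u' r)) T, sub_self,
        add_sub_cancel_left]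
  · rw [← intervalIntegral.integral_add_adjacent_intervals hi1.norm hi2.norm]
    congr 1
    · refine intervalIntegral.integral_congr_ae (Filter.Eventually.of_forall fun t ht => ?_)
      rw [Set.uIoc_of_le hT] at ht
      rw [hw1 t ht.2]
    · have e1 : ∫ t in T..(T + T'), ‖w t‖ = ∫ t in T..(T + T'), (fun r => ‖u' r‖) (t - T) := by
        refine intervalIntegral.integral_congr_ae (Filter.Eventually.of_forall fun t ht => ?_)
        rw [Set.uIoc_of_le (by linarith)] at ht
        dsimp only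
        rw [hw2 t ht.1]
      rw [e1, intervalIntegral.integral_comp_sub_right (fun r => ‖u' r‖) T, sub_self,
        add_sub_cancel_left]

/-! ### Comparison with the homogeneous gauge -/

/-- The homogeneous gauge `|v| + |z| ^ (1/2)` of `(v, z)`. -/
noncomputable def gauge (x : Heis n) : ℝ := ‖x.hor‖ + √‖x.ver‖

lemma gauge_nonneg (x : Heis n) : 0 ≤ gauge x := add_nonneg (norm_nonneg _) (Real.sqrt_nonneg _)

/-- `Reach x y L`: some horizontal curve of length `L` joins `x` to `y`. -/
def Reach (x y : Heis n) (L : ℝ) : Prop :=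
  ∃ (T : ℝ) (u : ℝ → V1 n), 0 ≤ T ∧ Steers u T x y ∧ L = ∫ t in (0 : ℝ)..T, ‖u t‖

lemma ccDist_eq (x y : Heis n) : ccDist x y = sInf {L | Reach x y L} := rfl

lemma Reach.nonneg {x y : Heis n} {L : ℝ} (h : Reach x y L) : 0 ≤ L := by
  obtain ⟨T, u, hT, -, rfl⟩ := h
  exact intervalIntegral.integral_nonneg hT fun t _ => norm_nonneg _

lemma Reach.trans {x y z : Heis n} {L L' : ℝ} (h : Reach x y L) (h' : Reach y z L') :
    Reach x z (L + L') := by
  obtain ⟨T, u, hT, hu, rfl⟩ := h
  obtain ⟨T', u', hT', hu', rfl⟩ := h'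
  obtain ⟨w, hw, hwL⟩ := hu.trans hT hT' hu'
  exact ⟨T + T', w, add_nonneg hT hT', hw, hwL.symm⟩

lemma Reach.mul_left {x y : Heis n} {L : ℝ} (h : Reach x y L) (g : Heis n) :
    Reach (g * x) (g * y) L := by
  obtain ⟨T, u, hT, hu, rfl⟩ := h
  exact ⟨T, u, hT, hu.mul_left g, rfl⟩

lemma reach_const (x : Heis n) (w : V1 n) : Reach x (x * ⟨w, 0⟩) ‖w‖ :=
  ⟨1, fun _ => w, zero_le_one, steers_const x w, by simp⟩

/-- The length of a horizontal curve from `1` bounds the gauge of its end point. -/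
lemma gauge_le_of_reach {x : Heis n} {L : ℝ} (h : Reach 1 x L) : gauge x ≤ 2 * L := by
  have hL := h.nonneg
  obtain ⟨T, u, hT, hu, hLeq⟩ := h
  have hprim : ∀ t ∈ Set.uIoc 0 T, ‖∫ s in (0 : ℝ)..t, u s‖ ≤ L := by
    intro t ht
    rw [Set.uIoc_of_le hT] at ht
    rw [hLeq]
    refine (intervalIntegral.norm_integral_le_integral_norm ht.1.le).trans ?_
    exact intervalIntegral.integral_mono_interval le_rfl ht.1.le ht.2
      (Filter.Eventually.of_forall fun t => norm_nonneg _) hu.integrable.norm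
  have hhor : ‖x.hor‖ ≤ L := by
    rw [hu.hor, Heis.one_hor, zero_add, hLeq]
    exact intervalIntegral.norm_integral_le_integral_norm hT
  have hver : ‖x.ver‖ ≤ L * L := by
    rw [hu.ver, Heis.one_ver, zero_add]
    have hbound : ∀ᵐ t, t ∈ Set.uIoc 0 T →
        ‖(1 / 2 : ℝ) • bracket ((1 : Heis n).hor + ∫ s in (0 : ℝ)..t, u s) (u t)‖ ≤ L * ‖u t‖ := by
      refine Filter.Eventually.of_forall fun t ht => ?_
      rw [Heis.one_hor, zero_add, norm_smul, Real.norm_of_nonneg (by norm_num : (0 : ℝ) ≤ 1 / 2)]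
      have h1 := hprim t ht
      have h2 := norm_bracket_le (∫ s in (0 : ℝ)..t, u s) (u t)
      nlinarith [norm_nonneg (u t)]
    have h3 := intervalIntegral.norm_integral_le_of_norm_le hT
      (by
        rw [Set.uIoc_of_le hT] at hbound
        exact hbound) (hu.integrable.norm.const_mul L)
    rwa [intervalIntegral.integral_const_mul, ← hLeq] at h3
  have hsqrt : √‖x.ver‖ ≤ L := by
    rw [Real.sqrt_le_left hL, sq]
    exact hver
  unfold gauge
  linarith

/-- The commutator of two horizontal elements. -/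
lemma commutator_eq (p q : V1 n) :
    (⟨p, 0⟩ * ⟨q, 0⟩ * ⟨-p, 0⟩ * ⟨-q, 0⟩ : Heis n) = ⟨0, bracket p q⟩ := by
  apply Heis.ext
  · simp
  · simp only [Heis.mul_ver, Heis.mul_hor, bracket_neg_right, bracket_neg_left,
      bracket_add_left, bracket_self, bracket_swap p q]
    module

/-- The vector of `V₁ = ℍⁿ` with first coordinate `a` and all other coordinates zero. -/
noncomputable def first (hn : 0 < n) (a : ℍ[ℝ]) : V1 n := PiLp.single 2 ⟨0, hn⟩ a

lemma first_apply (hn : 0 < n) (a : ℍ[ℝ]) : first hn a ⟨0, hn⟩ = a := by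
  simp [first]

lemma norm_first (hn : 0 < n) (a : ℍ[ℝ]) : ‖first hn a‖ = ‖a‖ := by
  simp [first]

lemma bracket_first_right (hn : 0 < n) (p : V1 n) (a : ℍ[ℝ]) :
    (bracket p (first hn a) : ℍ[ℝ]) = (2 : ℝ) • (star a * p ⟨0, hn⟩).im := by
  rw [bracket_coe, Finset.sum_eq_single ⟨0, hn⟩]
  · rw [first_apply]
  · intro i _ hi
    rw [first, PiLp.single_eq_of_ne _ hi, star_zero, zero_mul]
  · intro h
    exact absurd (Finset.mem_univ _) h

/-- Every vertical vector is the bracket of two horizontal ones of the optimal size. -/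
lemma exists_bracket_eq (hn : 0 < n) (z : V2) :
    ∃ p q : V1 n, bracket p q = z ∧ ‖p‖ ≤ √‖z‖ ∧ ‖q‖ ≤ √‖z‖ := by
  set r : ℝ := ‖z‖ with hr
  have hr0 : 0 ≤ r := norm_nonneg _
  set c : ℝ := √(r / 2) with hc
  have hc0 : 0 ≤ c := Real.sqrt_nonneg _
  have hcc : c * c = r / 2 := Real.mul_self_sqrt (by linarith)
  have hcr : c ≤ √r := Real.sqrt_le_sqrt (by linarith)
  refine ⟨first hn ((c / r) • (z : ℍ[ℝ])), first hn ((c : ℝ) : ℍ[ℝ]), ?_, ?_, ?_⟩
  · apply Subtype.ext
    rw [bracket_first_right, first_apply, Quaternion.star_coe, Quaternion.coe_mul_eq_smul,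
      smul_smul, Quaternion.im_smul, smul_smul]
    have him : (z : ℍ[ℝ]).im = z := by
      have h0 : (z : ℍ[ℝ]).re = 0 := z.2
      ext <;> simp [h0]
    rw [him]
    rcases eq_or_ne r 0 with h | h
    · have hz : (z : ℍ[ℝ]) = 0 := by
        have : ‖(z : ℍ[ℝ])‖ = 0 := h
        exact norm_eq_zero.1 this
      rw [hz, smul_zero]
    · have : 2 * (c * (c / r)) = 1 := by
        rw [← mul_div_assoc, hcc]
        field_simp
      rw [this, one_smul]
  · rw [norm_first, norm_smul, Real.norm_of_nonneg (by positivity)]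
    have hz : ‖(z : ℍ[ℝ])‖ = r := rfl
    rw [hz]
    rcases eq_or_ne r 0 with h | h
    · rw [h]; simp
    · rw [div_mul_cancel₀ _ h]; exact hcr
  · rw [norm_first, Quaternion.norm_coe, Real.norm_of_nonneg hc0]
    exact hcr

/-- Any point can be reached from `1` by a horizontal curve of length at most `4` times its
gauge. -/
lemma exists_reach_one (hn : 0 < n) (x : Heis n) : ∃ L, Reach 1 x L ∧ L ≤ 4 * gauge x := by
  obtain ⟨p, q, hpq, hp, hq⟩ := exists_bracket_eq hn x.ver
  have h1 := reach_const (1 : Heis n) p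
  have h2 := h1.trans (reach_const _ q)
  have h3 := h2.trans (reach_const _ (-p))
  have h4 := h3.trans (reach_const _ (-q))
  have h5 := h4.trans (reach_const _ x.hor)
  have hx : (1 : Heis n) * ⟨p, 0⟩ * ⟨q, 0⟩ * ⟨-p, 0⟩ * ⟨-q, 0⟩ * ⟨x.hor, 0⟩ = x := by
    rw [one_mul, commutator_eq, hpq]
    apply Heis.ext
    · simp
    · simp
  rw [hx] at h5
  refine ⟨_, h5, ?_⟩
  rw [norm_neg, norm_neg]
  unfold gauge
  linarith [norm_nonneg x.hor]

lemma exists_reach (hn : 0 < n) (x y : Heis n) :
    ∃ L, Reach x y L ∧ L ≤ 4 * gauge (x⁻¹ * y) := by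
  obtain ⟨L, hL, hle⟩ := exists_reach_one hn (x⁻¹ * y)
  refine ⟨L, ?_, hle⟩
  have := hL.mul_left x
  rwa [mul_one, mul_inv_cancel_left] at this

lemma bddBelow_reach (x y : Heis n) : BddBelow {L | Reach x y L} :=
  ⟨0, fun _ h => Reach.nonneg h⟩

lemma ccDist_nonneg (x y : Heis n) : 0 ≤ ccDist x y :=
  Real.sInf_nonneg fun _ h => Reach.nonneg h

/-- The Carnot–Carathéodory distance is at most `4` times the gauge. -/
lemma ccDist_le (hn : 0 < n) (x y : Heis n) : ccDist x y ≤ 4 * gauge (x⁻¹ * y) := by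
  obtain ⟨L, hL, hle⟩ := exists_reach hn x y
  exact (csInf_le (bddBelow_reach x y) hL).trans hle

/-- The gauge is at most twice the Carnot–Carathéodory distance. -/
lemma gauge_le (hn : 0 < n) (x y : Heis n) : gauge (x⁻¹ * y) ≤ 2 * ccDist x y := by
  obtain ⟨L₀, hL₀, -⟩ := exists_reach hn x y
  have h : gauge (x⁻¹ * y) / 2 ≤ ccDist x y := by
    refine le_csInf ⟨L₀, hL₀⟩ ?_
    intro L hL
    have hL' : Reach x y L := hL
    have h1 := hL'.mul_left x⁻¹
    rw [inv_mul_cancel] at h1
    have := gauge_le_of_reach h1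
    linarith
  linarith

end cc

/-! ### Quasi-isometries and generalized affine maps -/

/-- `f` is a quasi-isometry of `N` with its Carnot–Carathéodory metric. -/
def IsQuasiIsometry {n : ℕ} (f : Heis n → Heis n) : Prop :=
  ∃ L A : ℝ, 1 ≤ L ∧ 0 ≤ A ∧
    (∀ x y, ccDist x y / L - A ≤ ccDist (f x) (f y) ∧ ccDist (f x) (f y) ≤ L * ccDist x y + A) ∧
    ∀ y, ∃ x, ccDist (f x) y ≤ A

/-- A map `g : V₁ → V₂` is large scale Lipschitz. -/
def LargeScaleLipschitz {n : ℕ} (g : V1 n → V2) : Prop :=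
  ∃ L A : ℝ, 0 ≤ L ∧ 0 ≤ A ∧ ∀ x y, ‖g x - g y‖ ≤ L * ‖x - y‖ + A

/-- The shear map `S_g x = x + g (π₁ x)`. -/
noncomputable def shear {n : ℕ} (g : V1 n → V2) : Equiv.Perm (Heis n) where
  toFun x := ⟨x.hor, x.ver + g x.hor⟩
  invFun x := ⟨x.hor, x.ver - g x.hor⟩
  left_inv x := by
    apply Heis.ext
    · rfl
    · exact add_sub_cancel_right _ _
  right_inv x := by
    apply Heis.ext
    · rfl
    · exact sub_add_cancel _ _

/-- The affine maps: the group generated by the left translations and the Lie group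
automorphisms (the group automorphisms of `N` which are homeomorphisms). -/
noncomputable def affineGroup (n : ℕ) : Subgroup (Equiv.Perm (Heis n)) :=
  Subgroup.closure ({h | ∃ g : Heis n, h = Equiv.mulLeft g} ∪
    {h | ∃ φ : Heis n ≃ₜ* Heis n, h = φ.toMulEquiv.toEquiv})

/-- The generalized affine maps: the group of bijections of `N` generated by the affine maps and
the shear maps `S_g` with `g` large scale Lipschitz. -/
noncomputable def genAffineGroup (n : ℕ) : Subgroup (Equiv.Perm (Heis n)) :=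
  Subgroup.closure ((affineGroup n : Set (Equiv.Perm (Heis n))) ∪
    {h | ∃ g : V1 n → V2, LargeScaleLipschitz g ∧ h = shear g})

section main

variable {n : ℕ}

/-- `h` induces an affine map (over `ℤ`) on the horizontal layer. -/
def CoversAffine (h : Equiv.Perm (Heis n)) : Prop :=
  ∃ (A : V1 n →+ V1 n) (b : V1 n), ∀ x, (h x).hor = A x.hor + b

lemma CoversAffine.mul {h h' : Equiv.Perm (Heis n)} (H : CoversAffine h) (H' : CoversAffine h') :
    CoversAffine (h * h') := by
  obtain ⟨A, b, hA⟩ := H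
  obtain ⟨A', b', hA'⟩ := H'
  refine ⟨A.comp A', A b' + b, fun x => ?_⟩
  rw [Equiv.Perm.mul_apply, hA, hA', map_add, add_assoc]
  rfl

lemma coversAffine_one : CoversAffine (1 : Equiv.Perm (Heis n)) :=
  ⟨AddMonoidHom.id _, 0, fun x => by simp⟩

lemma coversAffine_mulLeft (g : Heis n) : CoversAffine (Equiv.mulLeft g) :=
  ⟨AddMonoidHom.id _, g.hor, fun x => by simp [add_comm]⟩

lemma coversAffine_shear (g : V1 n → V2) : CoversAffine (shear g) :=
  ⟨AddMonoidHom.id _, 0, fun x => by simp [shear]⟩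

/-- Group automorphisms preserve `V₂` and hence induce an additive map on `V₁`. -/
lemma coversAffine_aut (hn : 0 < n) (φ : Heis n ≃* Heis n) :
    CoversAffine (φ.toEquiv : Equiv.Perm (Heis n)) := by
  have hver : ∀ z : V2, (φ ⟨0, z⟩).hor = 0 := by
    intro z
    obtain ⟨p, q, hpq, -, -⟩ := exists_bracket_eq hn z
    have hinv : ∀ w : V1 n, (⟨-w, 0⟩ : Heis n) = ⟨w, 0⟩⁻¹ := by
      intro w
      apply Heis.ext <;> simp
    rw [← hpq, ← commutator_eq, hinv, hinv]
    simp only [map_mul, map_inv, Heis.mul_hor, Heis.inv_hor]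
    abel
  have hsplit : ∀ x : Heis n, x = ⟨x.hor, 0⟩ * ⟨0, x.ver⟩ := by
    intro x
    apply Heis.ext <;> simp
  have hhor : ∀ x : Heis n, (φ x).hor = (φ ⟨x.hor, 0⟩).hor := by
    intro x
    conv_lhs => rw [hsplit x]
    rw [map_mul, Heis.mul_hor, hver, add_zero]
  refine ⟨{ toFun := fun v => (φ ⟨v, 0⟩).hor, map_zero' := hver 0, map_add' := ?_ }, 0, ?_⟩
  · intro v w
    have h1 : (⟨v, 0⟩ : Heis n) * ⟨w, 0⟩ = ⟨v + w, (1 / 2 : ℝ) • bracket v w⟩ := by
      apply Heis.ext <;> simp
    have h2 := hhor (⟨v, 0⟩ * ⟨w, 0⟩)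
    rw [map_mul, Heis.mul_hor, Heis.mul_hor] at h2
    exact h2.symm
  · intro x
    rw [add_zero]
    exact hhor x

lemma coversAffine_of_mem_affineGroup (hn : 0 < n) {h : Equiv.Perm (Heis n)}
    (hh : h ∈ affineGroup n) : CoversAffine h ∧ CoversAffine h⁻¹ := by
  induction hh using Subgroup.closure_induction with
  | mem h hmem =>
    rcases hmem with ⟨g, rfl⟩ | ⟨φ, rfl⟩
    · refine ⟨coversAffine_mulLeft g, ?_⟩
      have : (Equiv.mulLeft g : Equiv.Perm (Heis n))⁻¹ = Equiv.mulLeft g⁻¹ := by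
        ext x <;> rfl
      rw [this]
      exact coversAffine_mulLeft _
    · exact ⟨coversAffine_aut hn φ.toMulEquiv, coversAffine_aut hn φ.toMulEquiv.symm⟩
  | one => exact ⟨coversAffine_one, by rw [inv_one]; exact coversAffine_one⟩
  | mul a b _ _ ha hb => exact ⟨ha.1.mul hb.1, by rw [mul_inv_rev]; exact hb.2.mul ha.2⟩
  | inv a _ ha => exact ⟨ha.2, by rw [inv_inv]; exact ha.1⟩

lemma coversAffine_of_mem_genAffineGroup (hn : 0 < n) {h : Equiv.Perm (Heis n)}
    (hh : h ∈ genAffineGroup n) : CoversAffine h ∧ CoversAffine h⁻¹ := by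
  induction hh using Subgroup.closure_induction with
  | mem h hmem =>
    rcases hmem with hmem | ⟨g, -, rfl⟩
    · exact coversAffine_of_mem_affineGroup hn hmem
    · refine ⟨coversAffine_shear g, ?_⟩
      exact ⟨AddMonoidHom.id _, 0, fun x => by
        change x.hor = _
        simp⟩
  | one => exact ⟨coversAffine_one, by rw [inv_one]; exact coversAffine_one⟩
  | mul a b _ _ ha hb => exact ⟨ha.1.mul hb.1, by rw [mul_inv_rev]; exact hb.2.mul ha.2⟩
  | inv a _ ha => exact ⟨ha.2, by rw [inv_inv]; exact ha.1⟩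

/-! ### The map -/

/-- The slowly growing function `φ x = log (1 + |Im v₁|)`, with `v₁` the first quaternionic
coordinate of `π₁ x`. -/
noncomputable def phi (hn : 0 < n) (x : Heis n) : ℝ :=
  Real.log (1 + ‖(x.hor ⟨0, hn⟩).im‖)

/-- Left multiplication of `x` by `exp (s φ(x) e)`, with `e = (1, 0, …, 0) ∈ ℍⁿ`. -/
noncomputable def logMap (hn : 0 < n) (s : ℝ) (x : Heis n) : Heis n :=
  ⟨first hn ((s * phi hn x : ℝ) : ℍ[ℝ]), 0⟩ * x

lemma logMap_hor (hn : 0 < n) (s : ℝ) (x : Heis n) :
    (logMap hn s x).hor = first hn ((s * phi hn x : ℝ) : ℍ[ℝ]) + x.hor := rfl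

lemma phi_logMap (hn : 0 < n) (s : ℝ) (x : Heis n) : phi hn (logMap hn s x) = phi hn x := by
  unfold phi
  rw [logMap_hor, PiLp.add_apply, first_apply, Quaternion.im_add, Quaternion.im_coe, zero_add]

lemma first_add (hn : 0 < n) (a b : ℍ[ℝ]) : first hn (a + b) = first hn a + first hn b :=
  PiLp.single_add 2 _

lemma logMap_logMap (hn : 0 < n) (s : ℝ) (x : Heis n) : logMap hn (-s) (logMap hn s x) = x := by
  have h1 : logMap hn (-s) (logMap hn s x) =
      ⟨first hn ((-s * phi hn x : ℝ) : ℍ[ℝ]), 0⟩ *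
        (⟨first hn ((s * phi hn x : ℝ) : ℍ[ℝ]), 0⟩ * x) := by
    conv_lhs => rw [logMap, phi_logMap]
    rfl
  have h2 : (⟨first hn ((-s * phi hn x : ℝ) : ℍ[ℝ]), 0⟩ : Heis n) =
      ⟨first hn ((s * phi hn x : ℝ) : ℍ[ℝ]), 0⟩⁻¹ := by
    apply Heis.ext
    · rw [Heis.inv_hor, first, first, ← PiLp.single_neg, neg_mul, Quaternion.coe_neg]
    · simp
  rw [h1, h2, inv_mul_cancel_left]

/-- The key one-variable estimate. -/
lemma log_estimate {a b r : ℝ} (ha : 0 ≤ a) (hb : 0 ≤ b) (hab : |a - b| ≤ r) :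
    |Real.log (1 + a) - Real.log (1 + b)| ≤ r ∧
      |Real.log (1 + a) - Real.log (1 + b)| * b ≤ 2 * r + 2 * r ^ 2 := by
  have hr : 0 ≤ r := (abs_nonneg _).trans hab
  have key : ∀ x y : ℝ, 0 ≤ y → y ≤ x →
      0 ≤ Real.log (1 + x) - Real.log (1 + y) ∧
        (Real.log (1 + x) - Real.log (1 + y)) * (1 + y) ≤ x - y := by
    intro x y hy hyx
    constructor
    · have := Real.log_le_log (by linarith : 0 < 1 + y) (by linarith : 1 + y ≤ 1 + x)
      linarith
    · rw [← Real.log_div (by linarith) (by linarith)]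
      have h := Real.log_le_sub_one_of_pos (show 0 < (1 + x) / (1 + y) by
        apply div_pos <;> linarith)
      have h2 : ((1 + x) / (1 + y) - 1) * (1 + y) = x - y := by
        field_simp
        ring
      nlinarith
  rw [abs_le] at hab
  rcases le_total b a with h | h
  · obtain ⟨h1, h2⟩ := key a b hb h
    rw [abs_of_nonneg h1]
    constructor <;> nlinarith
  · obtain ⟨h1, h2⟩ := key b a ha h
    have h3 : |Real.log (1 + a) - Real.log (1 + b)| = Real.log (1 + b) - Real.log (1 + a) := by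
      rw [abs_sub_comm, abs_of_nonneg h1]
    rw [h3]
    have h4 : Real.log (1 + b) - Real.log (1 + a) ≤ r := by nlinarith
    refine ⟨h4, ?_⟩
    rcases le_total b (2 * r) with h5 | h5
    · nlinarith
    · -- here `b ≤ 2 a`
      nlinarith

lemma gauge_logMap_le (hn : 0 < n) {s : ℝ} (hs : |s| = 1) (x y : Heis n) :
    gauge ((logMap hn s y)⁻¹ * logMap hn s x) ≤ 5 * gauge (y⁻¹ * x) + 1 := by
  set G := gauge (y⁻¹ * x) with hG
  have hG0 : 0 ≤ G := gauge_nonneg _
  have hhorG : ‖(y⁻¹ * x).hor‖ ≤ G := by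
    rw [hG, gauge]; linarith [Real.sqrt_nonneg ‖(y⁻¹ * x).ver‖]
  have hverG : ‖(y⁻¹ * x).ver‖ ≤ G ^ 2 := by
    have h1 : √‖(y⁻¹ * x).ver‖ ≤ G := by rw [hG, gauge]; linarith [norm_nonneg (y⁻¹ * x).hor]
    rwa [Real.sqrt_le_left hG0] at h1
  have hdiff : (y⁻¹ * x).hor = x.hor - y.hor := by
    rw [Heis.mul_hor, Heis.inv_hor]; abel
  set δ : ℝ := s * phi hn x - s * phi hn y with hδ
  set e : V1 n := first hn 1 with he
  have hfirst : ∀ c : ℝ, first hn ((c : ℝ) : ℍ[ℝ]) = c • e := by
    intro c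
    apply PiLp.ext
    intro i
    rw [PiLp.smul_apply, he]
    by_cases hi : i = ⟨0, hn⟩
    · rw [hi, first_apply, first_apply]
      ext <;> simp
    · rw [first, first, PiLp.single_eq_of_ne _ hi, PiLp.single_eq_of_ne _ hi, smul_zero]
  have hnorme : ‖e‖ = 1 := by rw [he, norm_first, norm_one]
  -- coordinates of the product
  have hhor : ((logMap hn s y)⁻¹ * logMap hn s x).hor = δ • e + (y⁻¹ * x).hor := by
    rw [Heis.mul_hor, Heis.inv_hor, logMap_hor, logMap_hor, hfirst, hfirst, hdiff, hδ, sub_smul]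
    abel
  have hver : ((logMap hn s y)⁻¹ * logMap hn s x).ver =
      (y⁻¹ * x).ver + δ • bracket e y.hor + (δ / 2) • bracket e (x.hor - y.hor) := by
    simp only [logMap, hfirst, Heis.mul_ver, Heis.mul_hor, Heis.inv_ver, Heis.inv_hor,
      bracket_neg_left, bracket_add_left, bracket_add_right, bracket_smul_left,
      bracket_smul_right, bracket_self, sub_eq_add_neg x.hor y.hor, bracket_neg_right,
      bracket_swap e y.hor]
    rw [hδ]
    module
  -- the scalar `δ`
  set a : ℝ := ‖(x.hor ⟨0, hn⟩).im‖ with ha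
  set b : ℝ := ‖(y.hor ⟨0, hn⟩).im‖ with hb
  have ha0 : 0 ≤ a := norm_nonneg _
  have hb0 : 0 ≤ b := norm_nonneg _
  have hab : |a - b| ≤ G := by
    refine (abs_norm_sub_norm_le _ _).trans ?_
    rw [← Quaternion.im_sub, ← PiLp.sub_apply, ← hdiff]
    exact (norm_im_le _).trans ((PiLp.norm_apply_le _ _).trans hhorG)
  have hδabs : |δ| = |Real.log (1 + a) - Real.log (1 + b)| := by
    rw [hδ, ← mul_sub, abs_mul, hs, one_mul]
    rfl
  obtain ⟨hest1, hest2⟩ := log_estimate ha0 hb0 hab
  rw [← hδabs] at hest1 hest2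
  have hbr : ‖bracket e y.hor‖ = 2 * b := by
    rw [bracket_swap, norm_neg]
    have hn' : ‖bracket y.hor e‖ = ‖(bracket y.hor e : ℍ[ℝ])‖ := rfl
    rw [hn', he, bracket_first_right, norm_smul, star_one, one_mul,
      Real.norm_of_nonneg (by norm_num : (0 : ℝ) ≤ 2)]
  have hbr2 : ‖bracket e (x.hor - y.hor)‖ ≤ 2 * G := by
    refine (norm_bracket_le _ _).trans ?_
    rw [hnorme, ← hdiff]
    linarith
  have hn1 : ‖((logMap hn s y)⁻¹ * logMap hn s x).hor‖ ≤ 2 * G := by
    rw [hhor]
    refine (norm_add_le _ _).trans ?_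
    rw [norm_smul, hnorme, Real.norm_eq_abs]
    linarith
  have hn2 : ‖((logMap hn s y)⁻¹ * logMap hn s x).ver‖ ≤ 6 * G ^ 2 + 4 * G := by
    rw [hver]
    refine (norm_add₃_le).trans ?_
    rw [norm_smul, norm_smul, hbr, Real.norm_eq_abs, Real.norm_eq_abs, abs_div,
      abs_of_pos (by norm_num : (0 : ℝ) < 2)]
    have h0 : 0 ≤ |δ| := abs_nonneg δ
    have h1 : |δ| / 2 * ‖bracket e (x.hor - y.hor)‖ ≤ G * G := by
      nlinarith [norm_nonneg (bracket e (x.hor - y.hor))]
    nlinarith
  have hn3 : √‖((logMap hn s y)⁻¹ * logMap hn s x).ver‖ ≤ 3 * G + 1 := by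
    rw [Real.sqrt_le_left (by linarith)]
    nlinarith
  rw [gauge]
  linarith

/-- One-sided coarse Lipschitz estimate for the map and for its inverse. -/
lemma ccDist_logMap_le (hn : 0 < n) {s : ℝ} (hs : |s| = 1) (x y : Heis n) :
    ccDist (logMap hn s x) (logMap hn s y) ≤ 40 * ccDist x y + 4 := by
  have h1 := ccDist_le hn (logMap hn s x) (logMap hn s y)
  have h2 := gauge_logMap_le hn hs y x
  have h3 := gauge_le hn x y
  linarith

/-- **Main theorem.** For every `n ≥ 1` the quaternionic Heisenberg group `N = N_n`, with its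
Carnot–Carathéodory metric, has a quasi-isometry `f : N → N` which is at infinite distance from
every generalized affine map. -/
theorem result (n : ℕ) (hn : 1 ≤ n) :
    ∃ f : Heis n → Heis n, IsQuasiIsometry f ∧
      ∀ h ∈ genAffineGroup n, ∀ D : ℝ, ∃ x : Heis n, D < ccDist (f x) (h x) := by
  refine ⟨logMap hn 1, ⟨40, 4, by norm_num, by norm_num, fun x y => ⟨?_, ?_⟩, fun y => ?_⟩, ?_⟩
  · have h1 := ccDist_logMap_le hn (s := -1) (by simp) (logMap hn 1 x) (logMap hn 1 y)
    rw [logMap_logMap, logMap_logMap] at h1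
    linarith
  · exact ccDist_logMap_le hn (by simp) x y
  · refine ⟨logMap hn (-1) y, ?_⟩
    have h1 : logMap hn 1 (logMap hn (-1) y) = y := by
      have := logMap_logMap hn (-1) y
      rwa [neg_neg] at this
    rw [h1]
    have h2 := ccDist_le hn y y
    rw [inv_mul_cancel] at h2
    have h3 : gauge (1 : Heis n) = 0 := by simp [gauge]
    linarith
  · intro h hh D
    by_contra! hcon
    obtain ⟨A, b, hA⟩ := (coversAffine_of_mem_genAffineGroup hn hh).1
    -- the distance between the horizontal components is bounded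
    have hbd : ∀ x : Heis n, ‖(h x).hor - (logMap hn 1 x).hor‖ ≤ 2 * D := by
      intro x
      have h1 := gauge_le hn (logMap hn 1 x) (h x)
      have h2 := hcon x
      have h3 : ‖((logMap hn 1 x)⁻¹ * h x).hor‖ ≤ gauge ((logMap hn 1 x)⁻¹ * h x) := by
        rw [gauge]; linarith [Real.sqrt_nonneg ‖((logMap hn 1 x)⁻¹ * h x).ver‖]
      rw [Heis.mul_hor, Heis.inv_hor, neg_add_eq_sub] at h3
      linarith
    have hkey : ∀ t : ℝ, 0 ≤ t → Real.log (1 + t) ≤ 2 * D + ‖b‖ := by
      intro t ht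
      let q : ℍ[ℝ] := ⟨0, t, 0, 0⟩
      have hqn : ‖q.im‖ = t := by
        have h1 : ‖q.im‖ * ‖q.im‖ = t * t := by
          have h0 : q.im = q := by ext <;> rfl
          rw [h0, ← Quaternion.normSq_eq_norm_mul_self, Quaternion.normSq_def']
          simp [q, sq]
        nlinarith [norm_nonneg q.im]
      have hp : ∀ σ : ℝ, |σ| = 1 → phi hn ⟨first hn (σ • q), 0⟩ = Real.log (1 + t) := by
        intro σ hσ
        unfold phi
        rw [first_apply, Quaternion.im_smul, norm_smul, hqn, Real.norm_eq_abs, hσ, one_mul]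
      have h1 := hbd ⟨first hn ((1 : ℝ) • q), 0⟩
      have h2 := hbd ⟨first hn ((-1 : ℝ) • q), 0⟩
      rw [hA, logMap_hor, hp 1 (by simp)] at h1
      rw [hA, logMap_hor, hp (-1) (by simp)] at h2
      set w : V1 n := first hn ((1 * Real.log (1 + t) : ℝ) : ℍ[ℝ]) with hw
      have hneg : first hn ((-1 : ℝ) • q) = -first hn ((1 : ℝ) • q) := by
        rw [neg_smul, first, first, PiLp.single_neg]
      rw [hneg, map_neg] at h2
      set v : V1 n := first hn ((1 : ℝ) • q) with hv
      have h3 : (2 : ℝ) • w = (2 : ℝ) • b - ((A v + b - (w + v)) + (-A v + b - (w + -v))) := by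
        module
      have h4 : ‖(2 : ℝ) • w‖ ≤ 2 * ‖b‖ + (2 * D + 2 * D) := by
        rw [h3]
        refine (norm_sub_le _ _).trans ?_
        refine add_le_add ?_ ((norm_add_le _ _).trans (add_le_add h1 h2))
        rw [norm_smul, Real.norm_of_nonneg (by norm_num : (0 : ℝ) ≤ 2)]
      rw [norm_smul, Real.norm_of_nonneg (by norm_num : (0 : ℝ) ≤ 2), hw, norm_first,
        Quaternion.norm_coe, one_mul, Real.norm_eq_abs] at h4
      have h5 := le_abs_self (Real.log (1 + t))
      linarith
    -- but the logarithm is unbounded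
    have hM := hkey (Real.exp (2 * D + ‖b‖ + 1)) (Real.exp_pos _).le
    have hlog : 2 * D + ‖b‖ + 1 ≤ Real.log (1 + Real.exp (2 * D + ‖b‖ + 1)) := by
      rw [Real.le_log_iff_exp_le (by positivity)]
      linarith
    linarith

end main

end Pool.Agent.Results.MP_afcf00_al.NotGenAffine
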